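import Pool.Agent.H33.SL1

set_option autoImplicit false

namespace Pool.Agent.Results.MP_20d9b9_al.Pos

open Pool.Agent.H33.SL Submodule

variable {A R : Type} [Ring A] [Ring R] {φ : A ≃+* A} {c : R → ℤ → A}

noncomputable def l (a : A) : ℕ∞ := Module.length A (A ∙ a)

lemma l_mul (x a y : A) : l (x * a * y) ≤ l a := by
  have h1 : (A ∙ (x * a * y)) ≤ (A ∙ a).map (LinearMap.toSpanSingleton A A y) :=
    (span_singleton_le_iff_mem _ _).2 ⟨x * a, mem_span_singleton.2 ⟨x, rfl⟩, rfl⟩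
  exact (Module.length_le_of_injective _ (inclusion_injective h1)).trans
    (Module.length_le_of_surjective _ (LinearMap.submoduleMap_surjective _ _))

lemma l_add (a b : A) : l (a + b) ≤ l a + l b := by
  have h1 : (A ∙ (a + b)) ≤ LinearMap.range ((A ∙ a).subtype.coprod (A ∙ b).subtype) :=
    (span_singleton_le_iff_mem _ _).2
      ⟨(⟨a, mem_span_singleton_self a⟩, ⟨b, mem_span_singleton_self b⟩), rfl⟩
  exact (Module.length_le_of_injective _ (inclusion_injective h1)).trans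
    ((Module.length_le_of_surjective _ (LinearMap.surjective_rangeRestrict _)).trans
      (Module.length_prod _ _ _).le)

lemma split (hA : ∀ a : A, ∃ s, a = a * s * a) {f : A} (hf : f * f = f) (h : 2 ≤ l f) :
    ∃ g, g ≠ 0 ∧ f - g ≠ 0 ∧ g * g = g ∧ f * g = g ∧ g * f = g := by
  have h1 : ¬ IsAtom (A ∙ f) := fun e => by
    rw [l, Module.length_eq_one_iff.2 (isSimpleModule_iff_isAtom.2 e)] at h
    exact absurd h (by decide)
  have h2 : (A ∙ f) ≠ ⊥ := fun e => by
    rw [l, e, Module.length_bot] at h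
    exact absurd h (by decide)
  simp only [IsAtom, not_and, not_forall] at h1
  obtain ⟨b, hb, h3⟩ := h1 h2
  obtain ⟨x, hx, h4⟩ := (Submodule.ne_bot_iff _).1 h3
  obtain ⟨t, ht⟩ := mem_span_singleton.1 (hb.le hx)
  have h5 : x * f = x := by rw [← ht, smul_eq_mul, mul_assoc, hf]
  obtain ⟨s, hs⟩ := hA x
  refine ⟨f * s * x, fun e => h4 ?_, fun e => hb.not_ge ((span_singleton_le_iff_mem _ _).2 ?_),
    ?_, by rw [← mul_assoc, ← mul_assoc, hf], by rw [mul_assoc, h5]⟩
  · calc x = x * f * s * x := by rw [h5, ← hs]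
      _ = 0 := by rw [mul_assoc x, mul_assoc x, e, mul_zero]
  · rw [sub_eq_zero.1 e]
    exact b.smul_mem _ hx
  · calc _ = f * s * (x * f * s * x) := by noncomm_ring
      _ = _ := by rw [h5, ← hs]

lemma split3 (hA : ∀ a : A, ∃ s, a = a * s * a) {f : A} (hf : f * f = f) (h : 3 ≤ l f) :
    ∃ F : Fin 3 → A, (∀ i j, i ≠ j → F i * F j = 0) ∧
      ∀ i, F i ≠ 0 ∧ F i * F i = F i ∧ f * F i = F i ∧ F i * f = F i := by
  have key : ∀ g k : A, k ≠ 0 → g * g = g → k * k = k → g * k = 0 → k * g = 0 → g + k = f →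
      2 ≤ l g → ∃ F : Fin 3 → A, (∀ i j, i ≠ j → F i * F j = 0) ∧
      ∀ i, F i ≠ 0 ∧ F i * F i = F i ∧ f * F i = F i ∧ F i * f = F i := by
    rintro g k h1 h2 h3 h4 h5 rfl h6
    obtain ⟨u, u1, u2, u3, u4, u5⟩ := split hA h2 h6
    have a1 : u * k = 0 := by rw [← u5, mul_assoc, h4, mul_zero]
    have a2 : k * u = 0 := by rw [← u4, ← mul_assoc, h5, zero_mul]
    refine ⟨![u, g - u, k], fun i j hij => ?_, fun i => ?_⟩
    · fin_cases i <;> fin_cases j <;> simp_all [mul_sub, sub_mul]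
    · fin_cases i <;> simp_all [mul_sub, sub_mul, mul_add, add_mul]
  obtain ⟨g, g1, g2, g3, g4, g5⟩ := split hA hf (le_trans (by decide) h)
  have g6 : (f - g) * (f - g) = f - g := by simp [mul_sub, sub_mul, *]
  by_cases h1 : 2 ≤ l g
  · exact key g (f - g) g2 g3 g6 (by simp [mul_sub, *]) (by simp [sub_mul, *]) (by simp) h1
  refine key (f - g) g g1 g6 g3 (by simp [sub_mul, *]) (by simp [mul_sub, *]) (by simp) ?_
  by_contra h2
  have h3 := l_add g (f - g)
  rw [add_sub_cancel] at h3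
  have e : ∀ x : ℕ∞, ¬ 2 ≤ x → x ≤ 1 := fun x hx => Order.le_of_lt_add_one (not_le.1 hx)
  exact absurd (h.trans (h3.trans (add_le_add (e _ h1) (e _ h2)))) (by decide)

def Good (φ : A ≃+* A) (p q : A) : Prop :=
  ∀ (k : ℕ) (N : ℤ), ∃ n > N, ∃ y, (k : ℕ∞) < l (p * y * (φ ^ n) q)

lemma step (hA : ∀ a : A, ∃ s, a = a * s * a) {p q : A} (h : Good φ p q) (N : ℤ) :
    ∃ n > N, ∃ a u v, Good φ (u * p) (q * v) ∧ u * p * a = 0 ∧ a * (φ ^ n) (q * v) = 0 ∧
      p * a * (φ ^ n) q ≠ 0 := by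
  obtain ⟨n, hn, y, hy⟩ := h 2 N
  set z := p * y * (φ ^ n) q with hz
  obtain ⟨w, hw⟩ := hA z
  obtain ⟨F, F1, F2⟩ := split3 hA (f := w * z) (by rw [mul_assoc, ← mul_assoc z, ← hw]) (by
    have := l_mul z (w * z) 1
    rw [mul_one, ← mul_assoc, ← hw] at this
    exact (Order.add_one_le_of_lt hy).trans this)
  have inv : ∀ x, (φ ^ n) ((φ ^ (-n)) x) = x := fun x => by
    rw [← RingAut.mul_apply, ← zpow_add]; simp
  obtain ⟨i, hi⟩ : ∃ i, Good φ ((1 - z * F i * w) * p) (q * (φ ^ (-n)) (1 - F i)) := by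
    by_contra! hc
    simp only [Good, not_forall, not_exists, not_and, not_lt] at hc
    choose k M hk using hc
    obtain ⟨m, hm, x, hx⟩ := h (k 0 + k 1 + k 2 + k 1 + k 2) (max (M 0) (max (M 1) (M 2)))
    simp only [gt_iff_lt, max_lt_iff] at hm
    let e := fun i => z * F i * w
    let g := fun i => (φ ^ m) ((φ ^ (-n)) (F i))
    let Y := fun i => (1 - e i) * (p * x * (φ ^ m) q) * (1 - g i)
    have hY : ∀ i, M i < m → l (Y i) ≤ k i := fun i hi => by
      simpa [Y, e, g, mul_assoc] using hk i m hi x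
    have he : ∀ i j, i ≠ j → e i * e j = 0 := fun i j hij => by
      calc _ = z * (F i * (w * z) * F j) * w := by simp only [e]; noncomm_ring
        _ = 0 := by rw [(F2 i).2.2.2, F1 i j hij]; simp
    have hg : ∀ i j, i ≠ j → g i * g j = 0 := fun i j hij => by
      simp only [g, ← map_mul, F1 i j hij, map_zero]
    have a1 : ∀ i j, i ≠ j → e i * (1 - e j) = e i := fun i j hij => by simp [mul_sub, he i j hij]
    have a2 : ∀ i j, i ≠ j → (1 - g i) * g j = g j := fun i j hij => by simp [sub_mul, hg i j hij]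
    have : p * x * (φ ^ m) q = Y 0 + e 0 * Y 1 * 1 + e 0 * Y 2 * g 1 + (1 - e 0) * Y 1 * g 0 +
        (1 - e 0) * e 1 * Y 2 * g 0 := by
      simp only [Y]
      generalize p * x * (φ ^ m) q = X
      simp only [mul_assoc, a2 2 1 (by decide), a2 1 0 (by decide), a2 2 0 (by decide)]
      simp only [← mul_assoc _ (1 - e _), a1 0 1 (by decide), a1 0 2 (by decide),
        a1 1 2 (by decide)]
      noncomm_ring
    rw [this] at hx
    refine absurd hx (not_lt.2 ?_)
    push_cast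
    have b := fun i u v hi => (l_mul u (Y i) v).trans (hY i hi)
    exact (l_add _ _).trans (add_le_add ((l_add _ _).trans (add_le_add ((l_add _ _).trans
      (add_le_add ((l_add _ _).trans (add_le_add (hY 0 hm.1) (b 1 _ _ hm.2.1))) (b 2 _ _ hm.2.2)))
      (b 1 _ _ hm.2.1))) (b 2 _ _ hm.2.2))
  obtain ⟨f1, f2, f3, f4⟩ := F2 i
  refine ⟨n, hn, y * (φ ^ n) q * F i * w * p * y, _, _, hi, ?_, ?_, fun e => f1 ?_⟩
  · calc _ = (z * F i - z * (F i * (w * z) * F i)) * w * p * y := by simp only [hz]; noncomm_ring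
      _ = 0 := by rw [f4, f2]; simp
  · rw [map_mul, inv]
    calc _ = y * (φ ^ n) q * (F i * (w * z) - F i * (w * z) * F i) := by simp only [hz]; noncomm_ring
      _ = 0 := by rw [f4, f2]; simp
  · calc _ = w * z * F i * (w * z) := by rw [f3, f4]
      _ = w * (p * (y * (φ ^ n) q * F i * w * p * y) * (φ ^ n) q) := by simp only [hz]; noncomm_ring
      _ = 0 := by rw [e, mul_zero]

lemma noeth (h : IsSL φ c) (hR : ∀ r : R, ∃ s, r = r * s * r) : IsNoetherian A A := by
  have hA : ∀ a : A, ∃ s, a = a * s * a := fun a => by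
    obtain ⟨s, hs⟩ := hR (h.mono a 0)
    exact ⟨c s 0, by simpa [h.mul_mono, h.mono_mul, h.c_mono] using congrArg (c · 0) hs⟩
  by_contra hc
  have h0 : Good φ 1 1 := fun k N => ⟨N + 1, by omega, 1, by
    have : Module.length A A = ⊤ := by_contra fun e => hc
      (isFiniteLength_iff_isNoetherian_isArtinian.1 (Module.length_ne_top_iff.1 e)).1
    rw [map_one, mul_one, mul_one, l, Ideal.submodule_span_eq, Ideal.span_singleton_one]
    simp [this]⟩
  choose n hn a u v h1 h2 h3 h4 using fun x : {x : A × A × ℤ // Good φ x.1 x.2.1} =>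
    step hA x.2 x.1.2.2
  let s : ℕ → {x : A × A × ℤ // Good φ x.1 x.2.1} := fun i =>
    Nat.rec ⟨(1, 1, 0), h0⟩ (fun _ x => ⟨(u x * x.1.1, x.1.2.1 * v x, n x), h1 x⟩) i
  have mono : StrictMono fun i => n (s i) := strictMono_nat_of_lt_succ fun i => hn (s (i + 1))
  have big : ∀ i : ℕ, (i : ℤ) ≤ n (s i) := fun i => by
    induction i with
    | zero => exact (hn (s 0)).le
    | succ i ih => have : n (s i) < n (s (i + 1)) := mono i.lt_succ_self; push_cast; omega
  have kill : ∀ j i, j < i → (s i).1.1 * a (s j) = 0 ∧ a (s j) * (φ ^ n (s j)) (s i).1.2.1 = 0 := by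
    intro j i hi
    induction i, hi using Nat.le_induction with
    | base => exact ⟨h2 _, h3 _⟩
    | succ i _ ih =>
      refine ⟨(mul_assoc _ _ _).trans (by rw [ih.1, mul_zero]), ?_⟩
      change _ * (φ ^ _) (_ * _) = 0
      rw [map_mul, ← mul_assoc, ih.2, zero_mul]
  have ex : ∀ m, (∃ j, m = n (s j) ∧ Function.extend (fun i => n (s i)) (fun i => a (s i)) 0 m =
      a (s j)) ∨ Function.extend (fun i => n (s i)) (fun i => a (s i)) 0 m = 0 := fun m => by
    by_cases hm : ∃ j, n (s j) = m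
    · obtain ⟨j, rfl⟩ := hm
      exact .inl ⟨j, rfl, mono.injective.extend_apply _ _ j⟩
    · exact .inr (Function.extend_apply' _ _ _ hm)
  obtain ⟨r, hr⟩ := (h.rng (Function.extend (fun i => n (s i)) (fun i => a (s i)) 0)).2
    ⟨0, fun m hm => (ex m).elim (fun ⟨j, e, _⟩ => by have := big j; omega) id⟩
  have hi := fun i => mono.injective.extend_apply (fun i => a (s i)) 0 i
  rw [← hr] at ex hi
  obtain ⟨t, ht⟩ := hR r
  obtain ⟨p, hp⟩ := h.bdd t
  let i := (1 - p).toNat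
  have k1 : ∀ m < n (s i), c (h.mono (s i).1.1 0 * r) m = 0 := fun m hm => by
    rcases ex m with ⟨j, rfl, e⟩ | e
    · simp [h.mono_mul, e, (kill j i (mono.lt_iff_lt.1 hm)).1]
    · simp [h.mono_mul, e]
  have k2 : ∀ m < n (s i), c (r * h.mono (s i).1.2.1 0) m = 0 := fun m hm => by
    rcases ex m with ⟨j, rfl, e⟩ | e
    · simp [h.mul_mono, e, (kill j i (mono.lt_iff_lt.1 hm)).2]
    · simp [h.mul_mono, e]
  have k3 := h.low0 (h.low0 k1 hp) k2 (n (s i)) (by have := big i; omega)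
  rw [← mul_assoc, mul_assoc _ r t, mul_assoc _ (r * t), ← ht] at k3
  exact h4 (s i) (by simpa [h.mul_mono, h.mono_mul, hi] using k3)

def lam (h : IsSL φ c) (e : R) : Submodule A A where
  carrier := {a | ∃ r, r * e = r ∧ (∀ i < 0, c r i = 0) ∧ c r 0 = a}
  zero_mem' := ⟨0, by simp [h.zero]⟩
  add_mem' := fun ⟨r, r1, r2, r3⟩ ⟨s, s1, s2, s3⟩ => ⟨r + s, by rw [add_mul, r1, s1],
    fun i hi => by simp [h.add', r2 i hi, s2 i hi], by rw [h.add', r3, s3]⟩
  smul_mem' b a := fun ⟨r, r1, r2, r3⟩ => ⟨h.mono b 0 * r, by rw [mul_assoc, r1],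
    fun i hi => by simp [h.mono_mul, r2 i hi], by simp [h.mono_mul, r3]⟩

lemma closed (h : IsSL φ c) {e e' : R} (h1 : e * e' = e) (h2 : lam h e' ≤ lam h e) (y : R)
    (hy : y * e' = y) (h0 : y * e = 0) : y = 0 := by
  obtain ⟨p, hp⟩ := h.bdd y
  obtain ⟨q, hq⟩ := h.bdd (1 - e)
  have : ∀ k : ℕ, ∃ r, r * e = r ∧ ∀ i < p + k, c (y - r) i = 0 := fun k => by
    induction k with
    | zero => exact ⟨0, by simp, by simpa using hp⟩
    | succ k ih =>
      obtain ⟨r, r1, r2⟩ := ih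
      obtain ⟨t, t1, t2, t3⟩ := h2 (show c (h.mono 1 (-(p + k)) * (y - r)) 0 ∈ lam h e' from
        ⟨_, by rw [mul_assoc, sub_mul, hy, ← r1, mul_assoc, h1], fun i hi => by
          rw [h.mono_mul, r2 _ (by omega), map_zero, mul_zero], rfl⟩)
      refine ⟨r + h.mono 1 (p + k) * t, by rw [add_mul, r1, mul_assoc, t1], fun i hi => ?_⟩
      rw [← sub_sub, h.sub', h.mono_mul]
      by_cases hi' : i < p + k
      · rw [r2 i hi', t2 _ (by omega)]; simp
      · obtain rfl : i = p + k := by push_cast at hi; omega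
        rw [sub_self, t3, h.mono_mul, one_mul, one_mul, ← RingAut.mul_apply, ← zpow_add]
        simp
  refine h.ext fun n => ?_
  obtain ⟨r, r1, r2⟩ := this (n + 1 - p - q).toNat
  have := h.low0 r2 hq n (by omega)
  rwa [mul_sub, mul_one, sub_mul, h0, r1, zero_sub, sub_neg_eq_add, sub_add_cancel, ← h.zero n]
    at this

theorem result : ∀ (A R : Type) [Ring A] [Ring R] (φ : A ≃+* A) (c : R → ℤ → A), IsSL φ c →
    (∀ r : R, ∃ s, r = r * s * r) → IsArtinianRing R ∧ IsArtinianRing Rᵐᵒᵖ := by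
  intro A R _ _ φ c h hR
  have := noeth h hR
  have : IsSemisimpleRing R := (isSemisimpleModule_iff _ _).2 ⟨fun I => by
    obtain ⟨_, ⟨e, ⟨e1, e2⟩, rfl⟩, hm⟩ := set_has_maximal_iff_noetherian.2 this
      (lam h '' {e | e ∈ I ∧ e * e = e}) ⟨_, 0, ⟨I.zero_mem, mul_zero _⟩, rfl⟩
    have key : ∀ x ∈ I, x * e = x := fun x hx => by
      have x1 : x - x * e ∈ I := sub_mem hx (I.smul_mem x e1)
      have x2 : (x - x * e) * e = 0 := by rw [sub_mul, mul_assoc, e2, sub_self]
      refine (sub_eq_zero.1 ?_).symm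
      generalize x - x * e = y at x1 x2
      obtain ⟨s, hs⟩ := hR y
      have a1 : e * (e + (1 - e) * s * y) = e := by
        rw [mul_add, ← mul_assoc, ← mul_assoc, mul_sub, e2]; simp
      have a2 : y * (e + (1 - e) * s * y) = y := by
        rw [mul_add, ← mul_assoc, ← mul_assoc, mul_sub, x2, sub_zero, mul_one, zero_add, ← hs]
      have a3 : lam h e ≤ lam h (e + (1 - e) * s * y) := fun _ ⟨r, r1, r2⟩ =>
        ⟨r, by rw [← r1, mul_assoc, a1], r2⟩
      refine closed h a1 (eq_of_le_of_not_lt a3 (hm _ ⟨_, ⟨add_mem e1 (I.smul_mem ((1 - e) * s) x1), ?_⟩,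
        rfl⟩)).ge y a2 x2
      rw [smul_eq_mul, add_mul, a1, mul_assoc _ y, a2]
    refine ⟨R ∙ (1 - e), disjoint_def.2 fun x h1 h2 => ?_, codisjoint_iff_le_sup.2 fun x _ =>
      mem_sup.2 ⟨x * e, I.smul_mem x e1, x * (1 - e), mem_span_singleton.2 ⟨x, rfl⟩, by
        simp [mul_sub]⟩⟩
    obtain ⟨t, rfl⟩ := mem_span_singleton.1 h2
    rw [← key _ h1, smul_eq_mul, mul_assoc, sub_mul, e2]; simp⟩
  exact ⟨inferInstance, inferInstance⟩

end Pool.Agent.Results.MP_20d9b9_al.Pos
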